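import Pool.Agent.H2.KM.Targets2

/-!
# Row IDP (MP_fd35e1_ag): the symmetrizer of a projector
-/

set_option autoImplicit false

open Matrix Pool.Agent.H2.NL Pool.Agent.H2.KM Pool.Agent.H64.CC

namespace Pool.Agent.H69.KM

theorem pf_IDP (h1 : T_SPH) (h2 : T_SYR) (h3 : T_SPJ) : T_IDP := by
  intro K _ I _ _ o f hf hff n
  obtain ⟨h4, -⟩ := h3 K I I I n
  obtain ⟨-, h5⟩ := h3 K I I I n
  obtain ⟨S, hS⟩ : ∃ S, S = Sp o (1 : Matrix I I K) n := ⟨_, rfl⟩
  have h6 : S * S = (n.factorial : K) • S := by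
    ext u w
    rw [hS, Matrix.mul_apply, Matrix.smul_apply, smul_eq_mul]
    have h7 : Symm o n (fun v => sp o (1 : Matrix I I K) v w.1) := by
      intro j _ v _
      refine h2 K I I o o (1 : Matrix I I K) ?_ w.1 j v
      intro a b hab
      by_cases h : a = b
      · rw [h]
      · exact absurd (Matrix.one_apply_ne h) hab
    exact h1 K I o n _ h7 u.1 u.2
  have e1 : Sp o f n = Jm f n * S := by
    rw [hS, h4, mul_one]
  have e2 : Sp o f n = S * Jm f n := by
    rw [hS, h5 o o 1 f hf, one_mul]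
  calc Sp o f n * Sp o f n = (Jm f n * S) * (S * Jm f n) := by rw [← e1, ← e2]
    _ = Jm f n * (S * S) * Jm f n := by simp only [Matrix.mul_assoc]
    _ = (n.factorial : K) • (Jm f n * S * Jm f n) := by
        rw [h6, Matrix.mul_smul, Matrix.smul_mul]
    _ = (n.factorial : K) • (Sp o f n * Jm f n) := by rw [← e1]
    _ = (n.factorial : K) • Sp o f n := by rw [h5 o o f f hf, hff]

end Pool.Agent.H69.KM
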